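import Pool.Agent.Lib.MP_0f9109_lc.SymMain

/-!
The approximation ratio of the k-lookahead auction is at most e^(1-1/k)/(1+e^(1-1/k)) for every
k at least 2, which matches the known lower bound; in particular it does not tend to 1.
-/

namespace Pool.Agent.Results.MP_0f9109_lc.ExactRatio

open Pool.Agent.Lib.MP_0f9109_lc

/-- For every `k ≥ 2` and `ε > 0` there is a finitely supported distribution on positive valuation
vectors of `k + 1` bidders, with positive optimal revenue and no tie between the top `k` bidders and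
the remaining one, for which a `k`-lookahead mechanism exists and every `k`-lookahead mechanism
earns at most the fraction `e^(1-1/k) / (1 + e^(1-1/k)) + ε` of the optimal revenue. -/
theorem result (k : ℕ) (hk : 2 ≤ k) (ε : ℝ) (hε : 0 < ε) :
    ∃ D : (Fin (k + 1) → ℝ) →₀ ℝ, IsDist D ∧ 0 < OPT D ∧
      (∀ v ∈ D.support, ∀ i ∈ topK k v, ∀ j, j ∉ topK k v → v j < v i) ∧
      (∃ r, IsLookaheadRev k D r) ∧
      ∀ r, IsLookaheadRev k D r → r / OPT D ≤
        Real.exp (1 - 1 / (k : ℝ)) / (1 + Real.exp (1 - 1 / (k : ℝ))) + ε := by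
  obtain ⟨m, rfl⟩ : ∃ m, k = m + 2 := ⟨k - 2, by omega⟩
  have h := Sym.main m ε hε
  push_cast
  exact h

end Pool.Agent.Results.MP_0f9109_lc.ExactRatio
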